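import Mathlib
import Pool.Agent.Helper86.PN.Defs

/-!
# PN: leaf B (both kinds of pairs)

Paper proof.  Every colour of `A` is additive on blocks (`st_B`).  A point `a` of colour `c`: the colour `c` does not occur on the
other positions of the row of `a` (pattern `{p}` needs `p ∣ K`), so `N_c (0, t) = 1 + N_c (s, t)`: `A` is colour-periodic in the
second coordinate.
-/

set_option autoImplicit false

namespace Pool.Agent.Helper51.PN

open Pool.Agent.Helper92.SS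
open Pool.Agent.Helper92.PU
open Pool.Agent.Helper48.PU
open Pool.Agent.Helper86.PN

theorem not_dvd_mul_pow {p n : ℕ} (hp : p.Prime) {s : ℤ} (hs : ¬ (p : ℤ) ∣ s) :
    ¬ (p : ℤ) ^ (n + 1) ∣ s * (p : ℤ) ^ n := by
  intro h
  rw [pow_succ, mul_comm s] at h
  exact hs ((mul_dvd_mul_iff_left (pow_ne_zero n (by exact_mod_cast hp.ne_zero))).1 h)

theorem not_dvd_one {p : ℕ} (hp : p.Prime) : ¬ (p : ℤ) ∣ 1 := by
  intro e
  have := Int.le_of_dvd one_pos e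
  have := hp.two_le
  omega

/-- No two points of one colour in a row of a block. -/
theorem nk_row {p n q m r : ℕ} {ca cl : ℤ × ℤ → ZMod r} {A L : Finset (ℤ × ℤ)}
    (h : NK p n q m ca cl A L) (c : ZMod r) (x y s : ℤ) (hs : ¬ (p : ℤ) ∣ s)
    (h1 : 0 < cc (kl ca A c) (p ^ (n + 1)) (q ^ (m + 1)) x y) :
    cc (kl ca A c) (p ^ (n + 1)) (q ^ (m + 1)) (x + s * (p : ℤ) ^ n) y = 0 := by
  by_contra hne
  obtain ⟨a, ha, h2, h3⟩ := cc_pos.1 h1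
  obtain ⟨b, hb, h4, h5⟩ := cc_pos.1 (Nat.pos_of_ne_zero hne)
  rw [Nat.cast_pow] at h2 h3 h4 h5
  obtain ⟨ha1, ha2⟩ := mem_kl.1 ha
  obtain ⟨hb1, hb2⟩ := mem_kl.1 hb
  have e1 : (p : ℤ) ^ (n + 1) ∣ b.1 - a.1 - s * (p : ℤ) ^ n := by
    have h6 := dvd_sub h4 h2
    have e : b.1 - (x + s * (p : ℤ) ^ n) - (a.1 - x) = b.1 - a.1 - s * (p : ℤ) ^ n := by ring
    rwa [e] at h6
  apply h.pK
  rw [h.cp.card, ← pat_p h.hp h.hq h.pq h.cp hb1 ha1 (hb2.trans ha2.symm) ?_ ?_ ?_ 0]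
  · exact dvd_mul_right _ _
  · have h6 := dvd_add ((pow_dvd_pow (p : ℤ) (Nat.le_succ n)).trans e1)
      (dvd_mul_left ((p : ℤ) ^ n) s)
    rwa [sub_add_cancel] at h6
  · intro h6
    refine not_dvd_mul_pow h.hp hs (n := n) ?_
    have h7 := dvd_sub h6 e1
    rwa [sub_sub_cancel] at h7
  · have h6 := dvd_sub h5 h3
    rwa [sub_sub_sub_cancel_right] at h6

/-- LEAF B. -/
theorem leafB : LeafB := by
  intro p n q m r ca cl A L h ⟨l, hl, l', hl', h1, h2, hc⟩ ⟨k, hk, k', hk', h1k, h2k, hkc⟩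
  apply h.pA2
  intro a ha
  have ha' := Helper92.PU.mem_sw.1 ha
  have h3 : 0 < cc (kl ca A (ca (a.2, a.1))) (p ^ (n + 1)) (q ^ (m + 1)) a.2 a.1 :=
    cc_pos.2 ⟨(a.2, a.1), mem_kl.2 ⟨ha', rfl⟩, by simp, by simp⟩
  have h4 := st_B h.hp h.hq h.hr.pos h.pq h.cp hl hl' hc h1 h2 hk hk' hkc h1k h2k
    (ca (a.2, a.1)) a.2 a.1 1 1
  have h5 := nk_row h (ca (a.2, a.1)) a.2 a.1 1 (not_dvd_one h.hp) h3
  have h6 : 0 < cc (kl ca A (ca (a.2, a.1))) (p ^ (n + 1)) (q ^ (m + 1)) a.2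
      (a.1 + 1 * (q : ℤ) ^ m) := by omega
  obtain ⟨b, hb, h7, h8⟩ := cc_pos.1 h6
  obtain ⟨hb1, hb2⟩ := mem_kl.1 hb
  rw [Nat.cast_pow] at h7 h8
  refine ⟨(b.2, b.1), Helper92.PU.mem_sw.2 hb1, hb2, ?_, h7⟩
  rwa [one_mul] at h8

end Pool.Agent.Helper51.PN
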