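import Mathlib
import Pool.Agent.Helper86.PN.Defs
import Pool.Agent.Helper51.PN.LeafB

/-!
# PN: leaf D (the points of `A` in state D)

Paper proof.  Let `a` of colour `c` be neither an `r`-point nor a row-point: a colour `c'` with `N_c' (0, 0) = 0` and a digit `t` with
`N_c (0, t) = 0`.  `f = N_c - N_c'` is additive on the block (`st_D`), `f (0, 0) = 1`, `f (s, 0) ≤ 0` (`nk_row`), `f (0, t) ≤ 0`, so
`f (s, t) ≤ -1`, so `N_c' (s, t) = 1`, `N_c (s, t) = 0`, `N_c' (s, 0) = 0` for all `s ≠ 0`.  So `p = 2` (`nk_row`), and the block is a box.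
-/

set_option autoImplicit false

namespace Pool.Agent.Helper51.PN

open Pool.Agent.Helper92.SS
open Pool.Agent.Helper92.PU
open Pool.Agent.Helper48.PU
open Pool.Agent.Helper86.PN

/-- A colour at a position. -/
theorem npos {p n q m r : ℕ} {ca : ℤ × ℤ → ZMod r} {A : Finset (ℤ × ℤ)} {c : ZMod r} {x y : ℤ} :
    0 < cc (kl ca A c) (p ^ (n + 1)) (q ^ (m + 1)) x y ↔
      ∃ b ∈ A, ca b = c ∧ (p : ℤ) ^ (n + 1) ∣ b.1 - x ∧ (q : ℤ) ^ (m + 1) ∣ b.2 - y := by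
  rw [cc_pos]
  constructor
  · rintro ⟨b, hb, h1, h2⟩
    rw [Nat.cast_pow] at h1 h2
    obtain ⟨hb1, hb2⟩ := mem_kl.1 hb
    exact ⟨b, hb1, hb2, h1, h2⟩
  · rintro ⟨b, hb, hc, h1, h2⟩
    refine ⟨b, mem_kl.2 ⟨hb, hc⟩, ?_, ?_⟩
    · rwa [Nat.cast_pow]
    · rwa [Nat.cast_pow]

private theorem off {q m : ℕ} {u v y t t' : ℤ} (h1 : (q : ℤ) ^ (m + 1) ∣ u - (y + t * (q : ℤ) ^ m))
    (h2 : (q : ℤ) ^ (m + 1) ∣ v - (y + t' * (q : ℤ) ^ m)) :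
    (q : ℤ) ^ (m + 1) ∣ u - v - (t - t') * (q : ℤ) ^ m := by
  have h3 := dvd_sub h1 h2
  have e : u - (y + t * (q : ℤ) ^ m) - (v - (y + t' * (q : ℤ) ^ m)) =
      u - v - (t - t') * (q : ℤ) ^ m := by ring
  rwa [e] at h3

/-- Positions in one block differ by a multiple of `q ^ m`. -/
theorem off_dvd {q m : ℕ} {u v y t t' : ℤ} (h1 : (q : ℤ) ^ (m + 1) ∣ u - (y + t * (q : ℤ) ^ m))
    (h2 : (q : ℤ) ^ (m + 1) ∣ v - (y + t' * (q : ℤ) ^ m)) : (q : ℤ) ^ m ∣ u - v := by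
  have h6 := dvd_add ((pow_dvd_pow (q : ℤ) (Nat.le_succ m)).trans (off h1 h2))
    (dvd_mul_left ((q : ℤ) ^ m) (t - t'))
  rwa [sub_add_cancel] at h6

/-- Different digits. -/
theorem off_not {q m : ℕ} (hq : q.Prime) {u v y t t' : ℤ}
    (h1 : (q : ℤ) ^ (m + 1) ∣ u - (y + t * (q : ℤ) ^ m))
    (h2 : (q : ℤ) ^ (m + 1) ∣ v - (y + t' * (q : ℤ) ^ m)) (ht : ¬ (q : ℤ) ∣ t - t') :
    ¬ (q : ℤ) ^ (m + 1) ∣ u - v := by
  intro h6
  refine not_dvd_mul_pow hq ht (n := m) ?_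
  have h7 := dvd_sub h6 (off h1 h2)
  rwa [sub_sub_cancel] at h7

/-- The same digit. -/
theorem off_same {q m : ℕ} {u v y : ℤ} (h1 : (q : ℤ) ^ (m + 1) ∣ u - y)
    (h2 : (q : ℤ) ^ (m + 1) ∣ v - y) : (q : ℤ) ^ (m + 1) ∣ u - v := by
  have h3 := dvd_sub h1 h2
  rwa [sub_sub_sub_cancel_right] at h3

/-- The key step. -/
theorem ld_key {p n q m r : ℕ} {ca cl : ℤ × ℤ → ZMod r} {A L : Finset (ℤ × ℤ)}
    (h : NK p n q m ca cl A L)
    (hD : ∃ l ∈ L, ∃ l' ∈ L, ¬ (p : ℤ) ∣ l.1 - l'.1 ∧ ¬ (q : ℤ) ∣ l.2 - l'.2 ∧ cl l ≠ cl l')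
    {c c' : ZMod r} {x y t : ℤ}
    (h1 : 0 < cc (kl ca A c) (p ^ (n + 1)) (q ^ (m + 1)) x y)
    (h2 : cc (kl ca A c') (p ^ (n + 1)) (q ^ (m + 1)) x y = 0)
    (h3 : cc (kl ca A c) (p ^ (n + 1)) (q ^ (m + 1)) x (y + t * (q : ℤ) ^ m) = 0) (s : ℤ)
    (hs : ¬ (p : ℤ) ∣ s) :
    cc (kl ca A c') (p ^ (n + 1)) (q ^ (m + 1)) (x + s * (p : ℤ) ^ n) (y + t * (q : ℤ) ^ m) = 1 ∧
    cc (kl ca A c) (p ^ (n + 1)) (q ^ (m + 1)) (x + s * (p : ℤ) ^ n) (y + t * (q : ℤ) ^ m) = 0 ∧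
    cc (kl ca A c') (p ^ (n + 1)) (q ^ (m + 1)) (x + s * (p : ℤ) ^ n) y = 0 := by
  obtain ⟨l, hl, l', hl', e1, e2, hc⟩ := hD
  have h4 := st_D h.hp h.hq h.pq h.cp hl hl' hc e1 e2 c c' x y s t
  have h5 := nk_row h c x y s hs h1
  have h6 := cc_le_one h.hp.pos h.hq.pos h.cp c' (x + s * (p : ℤ) ^ n) (y + t * (q : ℤ) ^ m)
  omega

private theorem third {r : ℕ} (hr : 3 ≤ r) (c c' : ZMod r) : ∃ c'' : ZMod r, c'' ≠ c ∧ c'' ≠ c' := by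
  have : NeZero r := ⟨by omega⟩
  by_contra hcon
  push Not at hcon
  have h1 : (Finset.univ : Finset (ZMod r)) ⊆ {c, c'} := by
    intro z _
    rw [Finset.mem_insert, Finset.mem_singleton]
    by_cases hz : z = c
    · exact Or.inl hz
    · exact Or.inr (hcon z hz)
  have h2 := Finset.card_le_card h1
  rw [Finset.card_univ, ZMod.card] at h2
  have h3 : ({c, c'} : Finset (ZMod r)).card ≤ 2 := Finset.card_le_two
  omega

/-- LEAF D. -/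
theorem leafD : LeafD := by
  intro p n q m r ca cl A L h hSD
  have hD := hSD.1
  by_cases hall : ∀ a ∈ A, RP p n q m ca A a ∨ QP p n q m ca A a
  · exact Or.inl hall
  right
  push Not at hall
  obtain ⟨a, ha, hR, hQ⟩ := hall
  unfold RP at hR
  unfold QP at hQ
  push Not at hR hQ
  obtain ⟨c', hc'⟩ := hR
  obtain ⟨t, ht⟩ := hQ
  have hqt : ¬ (q : ℤ) ∣ t := by
    rintro ⟨u, rfl⟩
    refine ht a ha rfl (by simp) ?_
    have e : a.2 - (a.2 + (q : ℤ) * u * (q : ℤ) ^ m) = (q : ℤ) ^ (m + 1) * (-u) := by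
      rw [pow_succ]
      ring
    rw [e]
    exact dvd_mul_right _ _
  have h1 : 0 < cc (kl ca A (ca a)) (p ^ (n + 1)) (q ^ (m + 1)) a.1 a.2 :=
    npos.2 ⟨a, ha, rfl, by simp, by simp⟩
  have h2 : cc (kl ca A c') (p ^ (n + 1)) (q ^ (m + 1)) a.1 a.2 = 0 := by
    by_contra hne
    obtain ⟨b, hb, e1, e2, e3⟩ := npos.1 (Nat.pos_of_ne_zero hne)
    exact hc' b hb e1 e2 e3
  have h3 : cc (kl ca A (ca a)) (p ^ (n + 1)) (q ^ (m + 1)) a.1 (a.2 + t * (q : ℤ) ^ m) = 0 := by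
    by_contra hne
    obtain ⟨b, hb, e1, e2, e3⟩ := npos.1 (Nat.pos_of_ne_zero hne)
    exact ht b hb e1 e2 e3
  have hp1 := not_dvd_one h.hp
  -- `p = 2`
  have hp2 : p = 2 := by
    by_contra hne
    have hp2 := h.hp.two_le
    have hp2' : ¬ (p : ℤ) ∣ 2 := by
      intro e
      have := Int.le_of_dvd two_pos e
      omega
    have k1 := (ld_key h hD h1 h2 h3 1 hp1).1
    have k2 := (ld_key h hD h1 h2 h3 2 hp2').1
    have k3 := nk_row h c' _ _ 1 hp1 (by rw [k1]; exact one_pos)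
    have e : a.1 + 1 * (p : ℤ) ^ n + 1 * (p : ℤ) ^ n = a.1 + 2 * (p : ℤ) ^ n := by ring
    rw [e] at k3
    omega
  obtain ⟨k1, k2, k3⟩ := ld_key h hD h1 h2 h3 1 hp1
  obtain ⟨b, hb, hbc, hb1, hb2⟩ := npos.1 (by rw [k1]; exact one_pos)
  have hcc : ca a ≠ c' := by
    intro e
    rw [e] at h1
    omega
  have ha1 : (p : ℤ) ^ (n + 1) ∣ a.1 - (a.1 + 0 * (p : ℤ) ^ n) := by simp
  have ha2 : (q : ℤ) ^ (m + 1) ∣ a.2 - (a.2 + 0 * (q : ℤ) ^ m) := by simp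
  refine ⟨hp2, a, ha, b, hb, by rwa [hbc], ⟨off_dvd ha1 hb1, off_not h.hp ha1 hb1 ?_,
    off_dvd ha2 hb2, off_not h.hq ha2 hb2 ?_⟩, ?_, ?_, ?_, ?_⟩
  · rwa [zero_sub, dvd_neg]
  · rwa [zero_sub, dvd_neg]
  · -- all colours
    intro c
    by_cases e1 : cc (kl ca A c) (p ^ (n + 1)) (q ^ (m + 1)) a.1 a.2 = 0
    · obtain ⟨f1, -, -⟩ := ld_key h hD h1 e1 h3 1 hp1
      obtain ⟨d, hd, hdc, hd1, hd2⟩ := npos.1 (by rw [f1]; exact one_pos)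
      exact ⟨d, hd, hdc, off_dvd hd1 ha1⟩
    · obtain ⟨d, hd, hdc, hd1, hd2⟩ := npos.1 (Nat.pos_of_ne_zero e1)
      exact ⟨d, hd, hdc, (pow_dvd_pow (p : ℤ) (Nat.le_succ n)).trans hd1⟩
  · -- the colour of `a` in the column of `b`
    intro d hd hdc hd1 hd2
    have hd3 : (q : ℤ) ^ (m + 1) ∣ d.2 - (a.2 + t * (q : ℤ) ^ m) := by
      have e := dvd_add hd2 hb2
      rwa [sub_add_sub_cancel] at e
    obtain ⟨u, hu⟩ := hd1
    by_cases hpu : (p : ℤ) ∣ u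
    · refine ht d hd hdc ?_ hd3
      rw [hu, pow_succ]
      exact mul_dvd_mul_left _ hpu
    · obtain ⟨-, f2, -⟩ := ld_key h hD h1 h2 h3 u hpu
      have f3 : 0 < cc (kl ca A (ca a)) (p ^ (n + 1)) (q ^ (m + 1)) (a.1 + u * (p : ℤ) ^ n)
          (a.2 + t * (q : ℤ) ^ m) := by
        refine npos.2 ⟨d, hd, hdc, ?_, hd3⟩
        have e : d.1 - (a.1 + u * (p : ℤ) ^ n) = 0 := by
          have e2 : d.1 - (a.1 + u * (p : ℤ) ^ n) = d.1 - a.1 - (p : ℤ) ^ n * u := by ring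
          rw [e2, hu, sub_self]
        rw [e]
        exact dvd_zero _
      omega
  · -- two colours at one position
    obtain ⟨c, hca, hcb⟩ := third h.r3 (ca a) c'
    by_cases e1 : cc (kl ca A c) (p ^ (n + 1)) (q ^ (m + 1)) a.1 a.2 = 0
    · obtain ⟨f1, -, -⟩ := ld_key h hD h1 e1 h3 1 hp1
      obtain ⟨d, hd, hdc, hd1, hd2⟩ := npos.1 (by rw [f1]; exact one_pos)
      exact ⟨d, hd, b, hb, by rwa [hdc, hbc], off_same hd1 hb1, off_same hd2 hb2⟩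
    · obtain ⟨d, hd, hdc, hd1, hd2⟩ := npos.1 (Nat.pos_of_ne_zero e1)
      exact ⟨d, hd, a, ha, by rwa [hdc], hd1, hd2⟩
  · -- two points of one colour on a line
    have hq2 : ¬ (q : ℤ) ∣ 2 := by
      intro e
      have e1 := Int.le_of_dvd two_pos e
      have e2 := h.hq.two_le
      have e3 := h.pq
      omega
    have hq2t : ¬ (q : ℤ) ∣ 2 * t := fun e =>
      ((Nat.prime_iff_prime_int.1 h.hq).dvd_or_dvd e).elim hq2 hqt
    obtain ⟨l, hl, l', hl', e1, e2, hc⟩ := hD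
    have h4 := st_D h.hp h.hq h.pq h.cp hl hl' hc e1 e2 (ca a) c' a.1 a.2 1 (2 * t)
    have h5 := nk_row h (ca a) a.1 a.2 1 hp1 h1
    rcases Nat.eq_zero_or_pos (cc (kl ca A (ca a)) (p ^ (n + 1)) (q ^ (m + 1)) a.1
      (a.2 + 2 * t * (q : ℤ) ^ m)) with h6 | h6
    · have h7 : 0 < cc (kl ca A c') (p ^ (n + 1)) (q ^ (m + 1)) (a.1 + 1 * (p : ℤ) ^ n)
          (a.2 + 2 * t * (q : ℤ) ^ m) := by omega
      obtain ⟨d, hd, hdc, hd1, hd2⟩ := npos.1 h7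
      refine ⟨d, hd, b, hb, hdc.trans hbc.symm, off_same hd1 hb1, off_dvd hd2 hb2,
        off_not h.hq hd2 hb2 ?_⟩
      have e : 2 * t - t = t := by ring
      rwa [e]
    · obtain ⟨d, hd, hdc, hd1, hd2⟩ := npos.1 h6
      refine ⟨d, hd, a, ha, hdc, hd1, off_dvd hd2 ha2, off_not h.hq hd2 ha2 ?_⟩
      rwa [sub_zero]

end Pool.Agent.Helper51.PN
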